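import Pool.Agent.WAP.StmtsL

/-!
# WAP, row ZSL: `z(a P) = a z(P)` up to a small error
-/

set_option autoImplicit false

namespace Pool.Agent.WAP.H52

open Classical Polynomial WeierstrassCurve.Affine
open Pool.Agent.WAP

theorem alg_eq (F : Type) [Field F] [Algebra GaussianInt F] (a : GaussianInt) :
    algebraMap GaussianInt F a = (a.re : F) + (a.im : F) * ii F := by
  have h : a = (a.re : GaussianInt) + (a.im : GaussianInt) * (⟨0, 1⟩ : GaussianInt) := by
    apply Zsqrtd.ext <;> simp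
  conv_lhs => rw [h]
  rw [map_add, map_mul, map_intCast, map_intCast]
  rfl

theorem zc_neg {F : Type} [Field F] {d : F} (P : Pt d) : zc (-P) = -zc P := by
  rcases P with _ | ⟨X, Y, h⟩
  · show (0 : F) / 0 = -(0 / 0)
    simp
  · show X / (W d).negY X Y = -(X / Y)
    rw [W_negY, div_neg]

theorem cX_neg {F : Type} [Field F] {d : F} (P : Pt d) : cX (-P) = cX P := by
  rcases P with _ | ⟨X, Y, h⟩
  · rfl
  · rfl

theorem cX_iPt {F : Type} [Field F] [Algebra GaussianInt F] {d : F} (P : Pt d) :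
    cX (iPt P) = -cX P := by
  rcases P with _ | ⟨X, Y, h⟩
  · show (0 : F) = -0
    ring
  · rfl

theorem ii_ne {F : Type} [Field F] [Algebra GaussianInt F] : ii F ≠ 0 := by
  intro h
  have h1 := ii_sq (F := F)
  rw [h] at h1
  norm_num at h1

theorem ii_inv {F : Type} [Field F] [Algebra GaussianInt F] : (ii F)⁻¹ = -ii F := by
  have h1 := ii_sq (F := F)
  field_simp [ii_ne]
  linear_combination h1

theorem zc_iPt {F : Type} [Field F] [Algebra GaussianInt F] {d : F} (P : Pt d) :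
    zc (iPt P) = ii F * zc P := by
  rcases P with _ | ⟨X, Y, h⟩
  · show (0 : F) / 0 = ii F * (0 / 0)
    simp
  · show -X / (ii F * Y) = ii F * (X / Y)
    rw [div_eq_mul_inv, mul_inv, ii_inv]
    ring

theorem big_neg {F : Type} [NormedField F] {d : F} {P : Pt d} (h : Big 1 P) : Big 1 (-P) := by
  rcases h with rfl | h
  · left
    exact neg_zero
  · right
    rw [cX_neg]
    exact h

theorem big_iPt {F : Type} [NormedField F] [Algebra GaussianInt F] {d : F} {P : Pt d}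
    (h : Big 1 P) : Big 1 (iPt P) := by
  rcases h with rfl | h
  · left
    rfl
  · right
    rw [cX_iPt, neg_div, norm_neg]
    exact h

theorem norm_ii (F : Type) [NormedField F] [Algebra GaussianInt F] : ‖ii F‖ = 1 := by
  have h : ‖ii F‖ ^ 2 = 1 := by
    rw [← norm_pow, ii_sq, norm_neg, norm_one]
  have h0 := norm_nonneg (ii F)
  nlinarith

section main
variable {F : Type} [NormedField F] [Algebra GaussianInt F] {ϖ : GaussianInt}

theorem small (hzeq : ZeqStmt) (hL : IsLoc F ϖ) {d : F} (hd : d ≠ 0) {P : Pt d} (hP : Big 1 P) :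
    ‖d‖ * ‖zc P‖ ^ 2 ≤ 1 := by
  rcases P with _ | ⟨X, Y, h⟩
  · have h1 : zc (WeierstrassCurve.Affine.Point.zero : Pt d) = 0 := zc_zero
    rw [h1, norm_zero]
    norm_num
  · rcases hP with hP | hP
    · exact absurd hP (WeierstrassCurve.Affine.Point.some_ne_zero h)
    · have h1 : 1 < ‖X / d‖ := hP
      rw [norm_div, lt_div_iff₀ (norm_pos_iff.2 hd), one_mul] at h1
      obtain ⟨-, -, -, h5, h6, -⟩ := hzeq F ϖ hL d X Y hd h h1
      rw [zc_some]
      linarith

theorem err_le {D z : ℝ} (hD : 0 ≤ D) (hz : 0 ≤ z) (h : D * z ^ 2 ≤ 1) : D ^ 2 * z ^ 5 ≤ z := by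
  have h0 : 0 ≤ D * z ^ 2 := by positivity
  have h1 : (D * z ^ 2) ^ 2 ≤ 1 := by nlinarith
  have h2 : D ^ 2 * z ^ 5 = (D * z ^ 2) ^ 2 * z := by ring
  rw [h2]
  nlinarith

theorem int_le (hL : IsLoc F ϖ) (n : ℤ) : ‖(n : F)‖ ≤ 1 := by
  have h := hL.int (n : GaussianInt)
  rwa [map_intCast] at h

theorem nat_case (hzeq : ZeqStmt) (hzal : ZalStmt) (hL : IsLoc F ϖ) {d : F} (hd : d ≠ 0)
    {P : Pt d} (hP : Big 1 P) (n : ℕ) :
    Big 1 (n • P) ∧ ‖zc (n • P) - (n : F) * zc P‖ ≤ ‖d‖ ^ 2 * ‖zc P‖ ^ 5 := by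
  have he := err_le (norm_nonneg d) (norm_nonneg (zc P)) (small hzeq hL hd hP)
  induction n with
  | zero =>
    rw [zero_smul]
    refine ⟨Or.inl rfl, ?_⟩
    rw [zc_zero, Nat.cast_zero, zero_mul, sub_zero, norm_zero]
    positivity
  | succ n ih =>
    obtain ⟨h1, h2⟩ := ih
    have h3 : ‖zc (n • P)‖ ≤ ‖zc P‖ := by
      have h4 : zc (n • P) = (zc (n • P) - (n : F) * zc P) + (n : F) * zc P := by ring
      rw [h4]
      refine (hL.ultra _ _).trans (max_le (h2.trans he) ?_)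
      rw [norm_mul]
      have h5 := int_le hL (n : ℤ)
      rw [Int.cast_natCast] at h5
      have h6 := norm_nonneg (zc P)
      nlinarith
    obtain ⟨h7, h8⟩ := hzal F ϖ hL d hd (n • P) P h1 hP
    rw [max_eq_right h3] at h8
    rw [succ_nsmul]
    refine ⟨h7, ?_⟩
    have h9 : zc (n • P + P) - ((n + 1 : ℕ) : F) * zc P =
        (zc (n • P + P) - zc (n • P) - zc P) + (zc (n • P) - (n : F) * zc P) := by
      push_cast
      ring
    rw [h9]
    exact (hL.ultra _ _).trans (max_le h8 h2)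

theorem int_case (hzeq : ZeqStmt) (hzal : ZalStmt) (hL : IsLoc F ϖ) {d : F} (hd : d ≠ 0)
    {P : Pt d} (hP : Big 1 P) (n : ℤ) :
    Big 1 (n • P) ∧ ‖zc (n • P) - (n : F) * zc P‖ ≤ ‖d‖ ^ 2 * ‖zc P‖ ^ 5 := by
  obtain ⟨m, rfl | rfl⟩ := Int.eq_nat_or_neg n
  · rw [natCast_zsmul, Int.cast_natCast]
    exact nat_case hzeq hzal hL hd hP m
  · obtain ⟨h1, h2⟩ := nat_case hzeq hzal hL hd hP m
    rw [neg_smul, natCast_zsmul]
    refine ⟨big_neg h1, ?_⟩
    rw [zc_neg]
    push_cast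
    have h3 : -zc (m • P) - -(m : F) * zc P = -(zc (m • P) - (m : F) * zc P) := by ring
    rw [h3, norm_neg]
    exact h2

theorem int_norm (hzeq : ZeqStmt) (hzal : ZalStmt) (hL : IsLoc F ϖ) {d : F} (hd : d ≠ 0)
    {P : Pt d} (hP : Big 1 P) (n : ℤ) : ‖zc (n • P)‖ ≤ ‖zc P‖ := by
  have he := err_le (norm_nonneg d) (norm_nonneg (zc P)) (small hzeq hL hd hP)
  have h2 := (int_case hzeq hzal hL hd hP n).2
  have h4 : zc (n • P) = (zc (n • P) - (n : F) * zc P) + (n : F) * zc P := by ring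
  rw [h4]
  refine (hL.ultra _ _).trans (max_le (h2.trans he) ?_)
  rw [norm_mul]
  have h5 := int_le hL n
  have h6 := norm_nonneg (zc P)
  nlinarith

end main

theorem zsl (hzeq : ZeqStmt) (hzal : ZalStmt) : ZslStmt := by
  intro F _ _ ϖ hL d hd a P hP
  have hiP : Big 1 (iPt P) := big_iPt hP
  have hzi : zc (iPt P) = ii F * zc P := zc_iPt P
  have hni : ‖zc (iPt P)‖ = ‖zc P‖ := by rw [hzi, norm_mul, norm_ii, one_mul]
  obtain ⟨h1, h2⟩ := int_case hzeq hzal hL hd hP a.re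
  obtain ⟨h3, h4⟩ := int_case hzeq hzal hL hd hiP a.im
  have h5 := int_norm hzeq hzal hL hd hP a.re
  have h6 := int_norm hzeq hzal hL hd hiP a.im
  rw [hni] at h4 h6
  obtain ⟨h7, h8⟩ := hzal F ϖ hL d hd _ _ h1 h3
  rw [sm_def]
  refine ⟨h7, ?_⟩
  have h9 : zc (a.re • P + a.im • iPt P) - algebraMap GaussianInt F a * zc P =
      (zc (a.re • P + a.im • iPt P) - zc (a.re • P) - zc (a.im • iPt P)) +
      ((zc (a.re • P) - (a.re : F) * zc P) +
        (zc (a.im • iPt P) - (a.im : F) * zc (iPt P))) := by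
    rw [alg_eq, hzi]
    ring
  rw [h9]
  refine (hL.ultra _ _).trans (max_le ?_ ((hL.ultra _ _).trans (max_le h2 h4)))
  refine h8.trans ?_
  have h10 : max ‖zc (a.re • P)‖ ‖zc (a.im • iPt P)‖ ≤ ‖zc P‖ := max_le h5 h6
  have h11 : 0 ≤ max ‖zc (a.re • P)‖ ‖zc (a.im • iPt P)‖ :=
    (norm_nonneg _).trans (le_max_left _ _)
  exact mul_le_mul_of_nonneg_left (pow_le_pow_left₀ h11 h10 5) (by positivity)

end Pool.Agent.WAP.H52
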